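import Pool.Agent.Y329.CG.Stm

/-! Maps of the line with derivative close to 1 are diffeomorphisms. -/

set_option autoImplicit false

open Set Filter Topology

namespace Pool.Agent.Y629.CG

open Pool.Agent.Y329.CG

theorem done : S_PM := by
  intro f hf hd
  have hdiff : Differentiable ℝ f := hf.differentiable (by norm_num)
  have hlow : ∀ x, 9 / 10 ≤ deriv f x := fun x => by
    have := (abs_le.1 (hd x)).1
    linarith
  have hpos : ∀ x, 0 < deriv f x := fun x => by linarith [hlow x]
  have hmono : StrictMono f := strictMono_of_deriv_pos hpos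
  have hcont : Continuous f := hf.continuous
  have hg : Monotone (fun x => f x - (9 / 10) * x) := by
    apply monotone_of_deriv_nonneg
    · exact hdiff.sub (differentiable_id.const_mul _)
    · intro x
      have h1 : HasDerivAt (fun x => f x - (9 / 10) * x) (deriv f x - (9 / 10) * 1) x :=
        (hdiff x).hasDerivAt.sub ((hasDerivAt_id x).const_mul _)
      rw [h1.deriv]
      linarith [hlow x]
  have hup : ∀ x, 0 ≤ x → f 0 + 9 / 10 * x ≤ f x := by
    intro x hx
    have := hg hx
    simp only [mul_zero, sub_zero] at this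
    linarith
  have hdn : ∀ x, x ≤ 0 → f x ≤ f 0 + 9 / 10 * x := by
    intro x hx
    have := hg hx
    simp only [mul_zero, sub_zero] at this
    linarith
  have hsurj : Function.Surjective f := by
    refine hcont.surjective ?_ ?_
    · refine tendsto_atTop_mono' atTop
        ((eventually_ge_atTop (0:ℝ)).mono fun x hx => hup x hx) ?_
      exact tendsto_atTop_add_const_left _ _ (tendsto_id.const_mul_atTop (by norm_num))
    · refine tendsto_atBot_mono' atBot
        ((eventually_le_atBot (0:ℝ)).mono fun x hx => hdn x hx) ?_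
      exact tendsto_atBot_add_const_left _ _ (tendsto_id.const_mul_atBot (by norm_num))
  set o : ℝ ≃o ℝ := hmono.orderIsoOfSurjective f hsurj with ho
  have hoe : (o.toHomeomorph : ℝ → ℝ) = f := rfl
  refine ⟨o.toEquiv, fun x => rfl, hmono, ?_, ?_⟩
  · have := Homeomorph.contDiff_symm_deriv (n := 2) (𝕜 := ℝ) o.toHomeomorph (f' := deriv f)
      (fun x => (hpos x).ne') (fun x => by rw [hoe]; exact (hdiff x).hasDerivAt)
      (by rw [hoe]; exact hf)
    exact this
  · intro x hx
    have hF : HasFDerivAt f ((ContinuousLinearEquiv.unitsEquivAut ℝ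
        (Units.mk0 (deriv f x) (hpos x).ne') : ℝ ≃L[ℝ] ℝ) : ℝ →L[ℝ] ℝ) x :=
      (hdiff x).hasDerivAt.hasFDerivAt_equiv (hpos x).ne'
    have := OpenPartialHomeomorph.analyticAt_symm' (𝕜 := ℝ)
      o.toHomeomorph.toOpenPartialHomeomorph (a := x) (mem_univ x) hx hF.fderiv
    exact this

end Pool.Agent.Y629.CG
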